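import Mathlib
import Pool.Agent.Helper176.LJAsp

set_option autoImplicit false

namespace Pool.Agent.Results.MP_526336_an.NotValdivia

open Topology

universe v

/-- A real normed space is Asplund: every separable subspace has a separable dual. -/
def IsAsplund (X : Type) [NormedAddCommGroup X] [NormedSpace ℝ X] : Prop :=
  ∀ S : Submodule ℝ X, TopologicalSpace.SeparableSpace S →
    TopologicalSpace.SeparableSpace (StrongDual ℝ S)

/-- `A` is a `Σ`-subset of `K`: for some set `Γ` there is a homeomorphic embedding
`h : K → ℝ^Γ` such that `A` consists of the points whose image has countable support. -/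
def IsSigmaSubset (K : Type) [TopologicalSpace K] (A : Set K) : Prop :=
  ∃ (Γ : Type v) (h : K → Γ → ℝ), IsEmbedding h ∧ A = {x | {γ | h x γ ≠ 0}.Countable}

/-- `K` is a Valdivia compact space: compact with a dense `Σ`-subset. -/
def IsValdivia (K : Type) [TopologicalSpace K] : Prop :=
  CompactSpace K ∧ ∃ A : Set K, IsSigmaSubset.{v} K A ∧ Dense A

/-- The bidual `Y**` as a set of functionals on `Y*`, with the weak-star topology
`σ(Y**, Y*)`. -/
abbrev WeakBidual (Y : Type) [NormedAddCommGroup Y] [NormedSpace ℝ Y] : Type :=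
  WeakDual ℝ (StrongDual ℝ Y)

/-- The closed unit ball of the bidual `Y**`, with the weak-star topology. -/
abbrev BidualBall (Y : Type) [NormedAddCommGroup Y] [NormedSpace ℝ Y] : Type :=
  {Φ : WeakBidual Y // ‖WeakDual.toStrongDual Φ‖ ≤ 1}

/-- The bidual ball of `Y` is Valdivia in the weak-star topology. -/
def ValdiviaBidualBall (Y : Type) [NormedAddCommGroup Y] [NormedSpace ℝ Y] : Prop :=
  IsValdivia.{v} (BidualBall Y)

/-- `Y` is `X` with an equivalent norm: there is a linear homeomorphism from `Y` onto `X`. -/
def IsRenormingOf (Y X : Type) [NormedAddCommGroup Y] [NormedSpace ℝ Y]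
    [NormedAddCommGroup X] [NormedSpace ℝ X] : Prop :=
  Nonempty (Y ≃L[ℝ] X)

/-- No equivalent norm on `X` has a Valdivia bidual ball. -/
def NoValdiviaRenorming (X : Type) [NormedAddCommGroup X] [NormedSpace ℝ X] : Prop :=
  ∀ (Y : Type) [NormedAddCommGroup Y] [NormedSpace ℝ Y],
    IsRenormingOf Y X → ¬ ValdiviaBidualBall.{v} Y

/-- There is an Asplund space (the long James space over `ω₂`) such that for no equivalent norm
the bidual unit ball is Valdivia in the weak-star topology. -/
theorem result : ∃ (X : Type) (_ : NormedAddCommGroup X) (_ : NormedSpace ℝ X),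
    CompleteSpace X ∧ IsAsplund X ∧ NoValdiviaRenorming.{v} X := by
  obtain ⟨L, i1, i2, i3, i4, hcof⟩ := Pool.Agent.Helper176.LJ.exists_L
  refine ⟨Pool.Agent.Helper176.LJ.LJS L, inferInstance, inferInstance, inferInstance, ?_, ?_⟩
  · intro S hS
    exact (Pool.Agent.Helper176.LJ.ljData L).separable_dual S hS
  · rintro Y _ _ ⟨e⟩ ⟨-, A, ⟨Γ, h, hemb, rfl⟩, hd⟩
    have hY : CompleteSpace Y :=
      (completeSpace_congr (e := e.toEquiv) e.isUniformEmbedding).2 inferInstance
    exact ((Pool.Agent.Helper176.LJ.ljData L).transfer e).contra hemb.continuous hemb.injective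
      hd hcof

end Pool.Agent.Results.MP_526336_an.NotValdivia
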